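import Pool.Agent.W983.PL.Stm

/-!
# PC-SIGLAM: the reflected lamination
-/
set_option autoImplicit false
open Set Topology

namespace Pool.Agent.W55.PC

open Pool.Agent.W983.PL

/-- the reflection `w ↦ - conj w` of the plane -/
noncomputable def rr : ℂ ≃L[ℝ] ℂ := Complex.conjCLE.trans (ContinuousLinearEquiv.neg ℝ)

lemma rr_apply (w : ℂ) : rr w = -(starRingEnd ℂ) w := by
  simp [rr]

lemma rr_rr (w : ℂ) : rr (rr w) = w := by
  rw [rr_apply, rr_apply]; simp

lemma rr_norm (w : ℂ) : ‖rr w‖ = ‖w‖ := by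
  rw [rr_apply, norm_neg]; exact Complex.norm_conj w

theorem siglam : S_SIGLAM := by
  intro σ hσ hσσ hccw Λ hΛ hVF hD
  have hinv : ∀ z, σ (σ z) = z := by
    intro z
    have := congrArg (fun f : HC => f z) hσσ
    exact this
  have hrσ : ∀ z : Circle, rr (z : ℂ) = (σ z : ℂ) := by
    intro z
    rw [rr_apply, hσ z]
  have hlink : ∀ a b c d, Linked a b c d → Linked (σ a) (σ b) (σ c) (σ d) := by
    intro a b c d h
    unfold Linked at h ⊢
    rw [hccw, hccw, hccw, hccw]
    tauto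
  refine ⟨⟨?_, ?_, ?_, ?_⟩, ?_, ?_⟩
  · intro a b h
    exact hΛ.symm _ _ h
  · intro a b h hab
    exact hΛ.ne _ _ h (by rw [hab])
  · intro a b hab h
    have e : refl σ Λ = (σ.prodCongr σ) ⁻¹' Λ := by
      ext p
      rfl
    rw [e, ← (σ.prodCongr σ).preimage_closure] at h
    exact hΛ.closed (σ a) (σ b) (fun h' => hab (σ.injective h')) h
  · intro a b c d h1 h2 h3
    exact hΛ.unlinked _ _ _ _ h1 h2 (hlink _ _ _ _ h3)
  · -- very full
    have hseg : ∀ (a b : Circle) (w : ℂ), w ∈ openSegment ℝ (a : ℂ) (b : ℂ) →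
        rr w ∈ openSegment ℝ (σ a : ℂ) (σ b : ℂ) := by
      intro a b w hw
      rw [← hrσ, ← hrσ]
      obtain ⟨s, t, hs, ht, hst, rfl⟩ := hw
      exact ⟨s, t, hs, ht, hst, by rw [map_add, map_smul, map_smul]⟩
    have hseg' : ∀ (a b : Circle) (w : ℂ), rr w ∈ openSegment ℝ (a : ℂ) (b : ℂ) →
        w ∈ openSegment ℝ (σ a : ℂ) (σ b : ℂ) := by
      intro a b w hw
      have := hseg a b (rr w) hw
      rwa [rr_rr] at this
    have hcomp : ∀ w, w ∈ complementary (refl σ Λ) ↔ rr w ∈ complementary Λ := by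
      intro w
      unfold complementary
      rw [Set.mem_sdiff, Set.mem_sdiff, mem_ball_zero_iff, mem_ball_zero_iff, rr_norm]
      apply and_congr_right
      intro _
      rw [not_iff_not]
      simp only [mem_iUnion₂]
      constructor
      · rintro ⟨l, hl, hw⟩
        exact ⟨(σ l.1, σ l.2), hl, hseg _ _ _ hw⟩
      · rintro ⟨l, hl, hw⟩
        refine ⟨(σ l.1, σ l.2), ?_, hseg' _ _ _ hw⟩
        show (σ (σ l.1), σ (σ l.2)) ∈ Λ
        rw [hinv, hinv]
        exact hl
    have himg : rr.toHomeomorph '' complementary Λ = complementary (refl σ Λ) := by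
      ext w
      constructor
      · rintro ⟨v, hv, rfl⟩
        rw [hcomp]
        show rr (rr v) ∈ _
        rw [rr_rr]
        exact hv
      · intro hw
        exact ⟨rr w, (hcomp w).mp hw, rr_rr w⟩
    intro z hz
    obtain ⟨V, hV3, hV⟩ := hVF (rr z) ((hcomp z).mp hz)
    refine ⟨V.map σ.toEquiv.toEmbedding, by rw [Finset.card_map]; exact hV3, ?_⟩
    have h1 := rr.toHomeomorph.image_connectedComponentIn ((hcomp z).mp hz)
    rw [himg] at h1
    have h2 : rr.toHomeomorph (rr z) = z := rr_rr z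
    rw [h2] at h1
    rw [← h1, ← rr.toHomeomorph.image_closure, hV]
    have h3 : rr.toHomeomorph '' convexHull ℝ ((fun a : Circle => (a : ℂ)) '' (V : Set Circle)) =
        convexHull ℝ (rr '' ((fun a : Circle => (a : ℂ)) '' (V : Set Circle))) :=
      LinearMap.image_convexHull (rr : ℂ →ₗ[ℝ] ℂ) _
    rw [h3, image_image]
    congr 1
    ext w
    simp only [mem_image, Finset.coe_map]
    constructor
    · rintro ⟨a, ha, rfl⟩
      exact ⟨σ a, ⟨a, ha, rfl⟩, (hrσ a).symm⟩
    · rintro ⟨a, ⟨c, hc, rfl⟩, rfl⟩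
      exact ⟨c, hc, hrσ c⟩
  · have e : Ends (refl σ Λ) = σ ⁻¹' Ends Λ := by
      ext a
      constructor
      · rintro ⟨b, hb⟩
        exact ⟨σ b, hb⟩
      · rintro ⟨b, hb⟩
        refine ⟨σ b, ?_⟩
        show (σ a, σ (σ b)) ∈ Λ
        rw [hinv]
        exact hb
    rw [e]
    exact hD.preimage σ.isOpenMap

end Pool.Agent.W55.PC
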