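import Pool.Agent.W811.LW.Stm

set_option autoImplicit false

/-!
Project LW (helper811), part INIT: the initial potentials are finite (helper55).
-/

open Finset Filter Topology
open scoped ENNReal

namespace Pool.Agent.W55.LWInit

open Pool.Agent.W811.LW

theorem rs_inN_le {S : Set V3} {a b : V3 → ℝ} {c : ℝ} (hc : 0 < c) (h : ∀ v ∈ S, c ≤ NN a b v) :
    rs (inN S a b) ≤ rs c := by
  unfold rs
  rcases S.eq_empty_or_nonempty with hS | hS
  · subst hS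
    simp only [inN, Set.image_empty, Real.sInf_empty, Real.sqrt_zero, inv_zero]
    positivity
  · have h1 : c ≤ inN S a b := by
      refine le_csInf (hS.image _) ?_
      rintro _ ⟨v, hv, rfl⟩
      exact h v hv
    exact inv_anti₀ (Real.sqrt_pos.2 hc) (Real.sqrt_le_sqrt h1)

theorem rs_nonneg (y : ℝ) : 0 ≤ rs y := by
  unfold rs; positivity

theorem fin_of_le {f : ℕ → ℝ} {C : ℝ} (h : ∀ m, f m ≤ C * (1 / 2) ^ m) :
    ∑' m : ℕ, ENNReal.ofReal (f m) < ⊤ := by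
  refine lt_of_le_of_lt (ENNReal.tsum_le_tsum fun m => ENNReal.ofReal_le_ofReal (h m)) ?_
  exact (summable_geometric_two.mul_left C).tsum_ofReal_lt_top

theorem init : INIT := by
  intro G c0 α hG hc hα
  have hG' : (1000:ℝ) ≤ (G:ℝ) := by exact_mod_cast hG
  have hG0 : (0:ℝ) < (G:ℝ) := by linarith
  have hG1 : (1:ℝ) ≤ (G:ℝ) := by linarith
  have hpow : ∀ m : ℕ, ((G:ℝ) ^ (3 * m))⁻¹ ≤ (1 / 2) ^ m := by
    intro m
    have h1 : (2:ℝ) ^ m ≤ (G:ℝ) ^ (3 * m) := by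
      rw [pow_mul]
      refine pow_le_pow_left₀ (by norm_num) ?_ m
      nlinarith [pow_le_pow_right₀ hG1 (show 1 ≤ 3 by norm_num), pow_one (G:ℝ)]
    rw [one_div, inv_pow]
    exact inv_anti₀ (by positivity) h1
  constructor
  · refine fin_of_le (C := (Real.sqrt c0)⁻¹) ?_
    intro m
    have hD : (0:ℝ) < ((G:ℝ) ^ 4) ^ (2 * m) := by positivity
    have h1 : rs (yV ((G : ℝ) ^ 4) α 0 0 0 m) ≤ rs (c0 * ((G:ℝ) ^ 4) ^ (2 * m)) := by
      refine rs_inN_le (by positivity) ?_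
      rintro v ⟨hv0, hv1⟩
      refine le_trans ?_ (le_max_right _ _)
      have h2 : c0 ≤ |(v.1:ℝ)| * |(v.1:ℝ) * α - (v.2.1:ℝ)| := by
        rcases lt_or_gt_of_ne hv0 with hneg | hpos
        · have := hα (-v.1) (-v.2.1) (by omega)
          have e1 : ((-v.1 : ℤ):ℝ) * α - ((-v.2.1 : ℤ):ℝ) = -((v.1:ℝ) * α - (v.2.1:ℝ)) := by
            push_cast; ring
          rw [e1, abs_neg] at this
          have hneg' : (v.1:ℝ) < 0 := by exact_mod_cast hneg
          rw [abs_of_neg hneg']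
          push_cast at this
          exact this
        · have := hα v.1 v.2.1 hpos
          have hpos' : (0:ℝ) < (v.1:ℝ) := by exact_mod_cast hpos
          rw [abs_of_pos hpos']
          exact this
      have h3 : |bV ((G:ℝ) ^ 4) 0 0 v| = |(v.1:ℝ)| := by
        unfold bV; simp
      rw [h3]
      calc c0 * ((G:ℝ) ^ 4) ^ (2 * m)
          ≤ |(v.1:ℝ)| * |(v.1:ℝ) * α - (v.2.1:ℝ)| * ((G:ℝ) ^ 4) ^ (2 * m) :=
            mul_le_mul_of_nonneg_right h2 hD.le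
        _ = |(v.1:ℝ)| * (|(v.1:ℝ) * α - (v.2.1:ℝ)| * ((G:ℝ) ^ 4) ^ (2 * m)) := by ring
        _ ≤ |(v.1:ℝ)| * 1 := mul_le_mul_of_nonneg_left hv1 (abs_nonneg _)
        _ = |(v.1:ℝ)| := mul_one _
    have h4 : rs (c0 * ((G:ℝ) ^ 4) ^ (2 * m)) = (Real.sqrt c0)⁻¹ * ((G:ℝ) ^ (4 * m))⁻¹ := by
      unfold rs
      rw [Real.sqrt_mul hc.le, mul_inv]
      congr 2
      rw [show ((G:ℝ) ^ 4) ^ (2 * m) = ((G:ℝ) ^ (4 * m)) ^ 2 by ring]
      exact Real.sqrt_sq (by positivity)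
    have h5 : et (G:ℝ) ((m:ℤ) - ((0:ℕ):ℤ)) = (G:ℝ) ^ m := by
      unfold et
      simp
    rw [h5]
    calc (G:ℝ) ^ m * rs (yV ((G : ℝ) ^ 4) α 0 0 0 m)
        ≤ (G:ℝ) ^ m * ((Real.sqrt c0)⁻¹ * ((G:ℝ) ^ (4 * m))⁻¹) := by
          rw [← h4]; exact mul_le_mul_of_nonneg_left h1 (by positivity)
      _ = (Real.sqrt c0)⁻¹ * ((G:ℝ) ^ (3 * m))⁻¹ := by
          rw [show 4 * m = 3 * m + m by ring, pow_add]
          field_simp
      _ ≤ (Real.sqrt c0)⁻¹ * (1 / 2) ^ m :=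
          mul_le_mul_of_nonneg_left (hpow m) (by positivity)
  · refine fin_of_le (C := 1) ?_
    intro m
    have h1 : rs (yW ((G : ℝ) ^ 4) α 0 0 0 m) ≤ 1 := by
      have : rs (yW ((G : ℝ) ^ 4) α 0 0 0 m) ≤ rs 1 := by
        refine rs_inN_le one_pos ?_
        rintro w ⟨-, hw, -⟩
        refine le_trans ?_ (le_max_right _ _)
        have h3 : |bW ((G:ℝ) ^ 4) 0 w| = |(w.2.2:ℝ)| := by
          unfold bW; simp
        rw [h3, ← Int.cast_abs]
        exact_mod_cast Int.one_le_abs hw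
      refine this.trans ?_
      unfold rs; simp
    have h5 : et (G:ℝ) (((0:ℕ):ℤ) - (m:ℤ)) ≤ (1 / 2) ^ m := by
      unfold et
      rcases Nat.eq_zero_or_pos m with h0 | h0
      · subst h0; simp
      · rw [if_neg (by omega)]
        refine le_trans (le_of_eq ?_) (hpow m)
        rw [show (3:ℤ) * (((0:ℕ):ℤ) - (m:ℤ)) = -((3 * m : ℕ):ℤ) by push_cast; ring, zpow_neg,
          zpow_natCast]
    have h6 : 0 ≤ et (G:ℝ) (((0:ℕ):ℤ) - (m:ℤ)) := by
      unfold et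
      split_ifs <;> positivity
    calc et (G:ℝ) (((0:ℕ):ℤ) - (m:ℤ)) * rs (yW ((G : ℝ) ^ 4) α 0 0 0 m)
        ≤ et (G:ℝ) (((0:ℕ):ℤ) - (m:ℤ)) * 1 := mul_le_mul_of_nonneg_left h1 h6
      _ ≤ 1 * (1 / 2) ^ m := by linarith

end Pool.Agent.W55.LWInit
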